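import Pool.Agent.PPG.Defs

/-!
# PPL/DefsL: cubic forms with a primitive positive definite Hessian
-/

set_option autoImplicit false

namespace Pool.Agent.PPL

open Pool.Agent.PPG

/-- the Hessian of `F` is a primitive positive definite form of discriminant `-D` -/
structure Nd (D : ℕ) (a b c d : ℤ) : Prop where
  hD : (D : ℤ) = 4 * Pc a b c * Pc d c b - Qc a b c d ^ 2
  pr : ∃ u v t : ℤ, u * Pc a b c + v * Qc a b c d + t * Pc d c b = 1
  p0 : 0 < Pc a b c

/-- moreover the Hessian is strictly reduced and `F(1,0) ≠ 0` -/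
structure Nf (D : ℕ) (a b c d : ℤ) : Prop extends Nd D a b c d where
  p2 : 2 ≤ Pc a b c
  q1 : |Qc a b c d| < Pc a b c
  r1 : Pc a b c < Pc d c b
  ha : a ≠ 0

end Pool.Agent.PPL
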