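import Pool.Agent.FTA.Fam
import Pool.Agent.FTL.LFd

/-!
# PPL/Fdm: fundamental discriminants

`Fd D` (for `D > 0`): `-D` is the discriminant of a quadratic field.
-/

set_option autoImplicit false

namespace Pool.Agent.PPL

open NumberField Pool.Agent.FTA Pool.Agent.FTB Pool.Agent.FTL

/-- no odd prime square divides `D`, and `D = 3` modulo 4 or `D = 4, 8` modulo 16 -/
def Fd (D : ℤ) : Prop :=
  (∀ q : ℕ, q.Prime → q ≠ 2 → ¬ ((q : ℤ) ^ 2 ∣ D)) ∧ (D % 4 = 3 ∨ D % 16 = 4 ∨ D % 16 = 8)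

theorem disc_eq (K : IntermediateField ℚ ℂ) [NumberField K] (h2 : Module.finrank ℚ K = 2)
    (him : ∃ x : K, (x : ℂ).im ≠ 0) : discr K = -(aD K : ℤ) := by
  obtain ⟨b⟩ := exists_basis K h2
  have h1 := discr_eq_om K h2 him b
  have h3 : ((discr K : ℤ) : ℝ) ≤ 0 := by
    rw [h1]
    nlinarith [sq_nonneg (om K b)]
  have h4 : discr K ≤ 0 := by exact_mod_cast h3
  rw [aD_eq]
  omega

theorem aD_mod (K : IntermediateField ℚ ℂ) [NumberField K] (h2 : Module.finrank ℚ K = 2)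
    (him : ∃ x : K, (x : ℂ).im ≠ 0) : aD K % 4 = 0 ∨ aD K % 4 = 3 := by
  obtain ⟨ω, t, hω⟩ := omg_exists K h2 him
  have h1 := co_norm K h2 him ω t 1 hω
  rcases Int.even_or_odd' t with ⟨s, hs | hs⟩
  · left
    have h3 : (aD K : ℤ) = 4 * ((Ideal.absNorm (Ideal.span {ω}) : ℤ) - s ^ 2) := by
      rw [hs] at h1; linarith
    omega
  · right
    have h3 : (aD K : ℤ) = 4 * ((Ideal.absNorm (Ideal.span {ω}) : ℤ) - s ^ 2 - s) - 1 := by
      rw [hs] at h1; linarith
    omega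

theorem fd_of (K : IntermediateField ℚ ℂ) [NumberField K] (h2 : Module.finrank ℚ K = 2)
    (him : ∃ x : K, (x : ℂ).im ≠ 0) : Fd (aD K : ℤ) := by
  constructor
  · intro q hq hq2 hd
    apply lfb3 K h2 him q hq hq2
    exact_mod_cast hd
  · rcases aD_mod K h2 him with h | h
    · right
      obtain ⟨E, hE⟩ : ∃ E, aD K = 4 * E := ⟨aD K / 4, by omega⟩
      have hpos := aD_pos K
      have hE1 : 1 ≤ E := by omega
      have key : ¬ (E % 4 = 0 ∨ E % 4 = 3) := by
        intro h4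
        have hmem : ((√(E : ℝ) : ℝ) : ℂ) * Complex.I ∈ K := by
          have h1 : (√(aD K : ℝ) : ℝ) = 2 * √(E : ℝ) := by
            have : (aD K : ℝ) = (2 : ℝ) ^ 2 * (E : ℝ) := by rw [hE]; push_cast; ring
            rw [this, Real.sqrt_mul (by positivity), Real.sqrt_sq (by positivity)]
          have h3 : ((√(E : ℝ) : ℝ) : ℂ) * Complex.I
              = (((√(aD K : ℝ) : ℝ) : ℂ) * Complex.I) / ((2 : ℕ) : ℂ) := by
            rw [h1]
            push_cast
            field_simp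
          rw [h3]
          exact div_mem (mem_sq K h2 him) (natCast_mem _ 2)
        obtain ⟨y, hy1, hy⟩ := lfb2 K h2 him E hE1 h4 hmem
        have h5 : 1 ≤ y ^ 2 := Nat.one_le_pow _ _ hy1
        nlinarith
      omega
    · left
      omega

theorem kf_fd (D : ℕ) (hD : 1 ≤ D) (hF : Fd (D : ℤ)) :
    ∃ _ : NumberField (Kf D), Module.finrank ℚ (Kf D) = 2 ∧ (∃ x : Kf D, (x : ℂ).im ≠ 0) ∧
      aD (Kf D) = D := by
  obtain ⟨hF1, hF2⟩ := hF
  obtain ⟨⟨hn, h2⟩, him, hc, hc1, -⟩ := fld D hD (by omega)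
  refine ⟨hn, h2, him, ?_⟩
  have h3 : cf D = 1 := by
    by_contra hne
    obtain ⟨q, hq, hqd⟩ := Nat.exists_prime_and_dvd hne
    obtain ⟨e, he⟩ := hqd
    by_cases hq2 : q = 2
    · subst hq2
      have h5 := aD_mod (Kf D) h2 him
      have h6 : D = 4 * (e ^ 2 * aD (Kf D)) := by rw [he] at hc; linarith
      have h7 : (e ^ 2 * aD (Kf D)) % 4 = 0 ∨ (e ^ 2 * aD (Kf D)) % 4 = 3 := by
        rcases Nat.even_or_odd' e with ⟨s, hs | hs⟩
        · left
          have : e ^ 2 * aD (Kf D) = 4 * (s ^ 2 * aD (Kf D)) := by rw [hs]; ring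
          omega
        · have : e ^ 2 * aD (Kf D) = 4 * ((s ^ 2 + s) * aD (Kf D)) + aD (Kf D) := by
            rw [hs]; ring
          omega
      omega
    · apply hF1 q hq hq2
      have : q ^ 2 ∣ D := ⟨e ^ 2 * aD (Kf D), by rw [he] at hc; linarith⟩
      exact_mod_cast this
  rw [h3] at hc
  omega

end Pool.Agent.PPL
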