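import Pool.Agent.PPB.DefsB
import Pool.Agent.PPL.DefsL
import Pool.Agent.PPL.Fdm

/-!
# PPL/BoxL: the box around `(1, 1, -1, -2)` (see `PPG/BoxR`)
-/

set_option autoImplicit false

namespace Pool.Agent.PPL

open Pool.Agent.PPG Pool.Agent.PPB

/-- the content of a form of fundamental discriminant is 1 -/
theorem prm (P Q R : ℤ) (h : Fd (4 * P * R - Q ^ 2)) :
    ∃ u v t : ℤ, u * P + v * Q + t * R = 1 := by
  obtain ⟨g, hg⟩ : ∃ g : ℤ, g = ((Int.gcd P Q : ℕ) : ℤ) := ⟨_, rfl⟩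
  obtain ⟨e, he⟩ : ∃ e : ℕ, e = Int.gcd g R := ⟨_, rfl⟩
  have h1 : (e : ℤ) ∣ g := by rw [he]; exact Int.gcd_dvd_left ..
  have h2 : (e : ℤ) ∣ R := by rw [he]; exact Int.gcd_dvd_right ..
  have h3 : (e : ℤ) ∣ P := h1.trans (by rw [hg]; exact Int.gcd_dvd_left ..)
  have h4 : (e : ℤ) ∣ Q := h1.trans (by rw [hg]; exact Int.gcd_dvd_right ..)
  have h6 : e = 1 := by
    by_contra hne
    obtain ⟨q, hq, hqd⟩ := Nat.exists_prime_and_dvd hne
    have hqe : (q : ℤ) ∣ (e : ℤ) := by exact_mod_cast hqd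
    obtain ⟨P', hP'⟩ := hqe.trans h3
    obtain ⟨Q', hQ'⟩ := hqe.trans h4
    obtain ⟨R', hR'⟩ := hqe.trans h2
    have h5 : 4 * P * R - Q ^ 2 = (q : ℤ) ^ 2 * (4 * (P' * R') - Q' ^ 2) := by
      rw [hP', hQ', hR']; ring
    by_cases hq2 : q = 2
    · subst hq2
      have h8 := h.2
      rw [h5] at h8
      rcases Int.even_or_odd' Q' with ⟨s, hs | hs⟩
      · have : ((2 : ℕ) : ℤ) ^ 2 * (4 * (P' * R') - Q' ^ 2) = 16 * (P' * R' - s ^ 2) := by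
          rw [hs]; push_cast; ring
        omega
      · have : ((2 : ℕ) : ℤ) ^ 2 * (4 * (P' * R') - Q' ^ 2) =
            16 * (P' * R' - s ^ 2 - s) - 4 := by
          rw [hs]; push_cast; ring
        omega
    · exact h.1 q hq hq2 ⟨_, h5⟩
  have h9 := Int.gcd_eq_gcd_ab g R
  have h10 := Int.gcd_eq_gcd_ab P Q
  rw [← he, h6] at h9
  rw [← hg] at h10
  push_cast at h9
  refine ⟨Int.gcdA P Q * Int.gcdA g R, Int.gcdB P Q * Int.gcdA g R, Int.gcdB g R, ?_⟩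
  linear_combination (-(Int.gcdA g R)) * h10 - h9

private theorem near (a0 T : ℝ) (m : ℤ) (hT : 0 < T)
    (h : m ∈ Finset.Icc ⌈T * a0 - 1 / 100 * T⌉ ⌊T * a0 + 1 / 100 * T⌋) :
    ∃ x : ℝ, (m : ℝ) = T * x ∧ a0 - 1 / 100 ≤ x ∧ x ≤ a0 + 1 / 100 := by
  rw [Finset.mem_Icc, Int.ceil_le, Int.le_floor] at h
  refine ⟨(m : ℝ) / T, by field_simp, ?_, ?_⟩
  · rw [le_div_iff₀ hT]
    nlinarith [h.1]
  · rw [div_le_iff₀ hT]
    nlinarith [h.2]

/-- the real inequalities -/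
private theorem ineq (x y z w : ℝ) (x1 : 99 / 100 ≤ x) (x2 : x ≤ 101 / 100) (y1 : 99 / 100 ≤ y)
    (y2 : y ≤ 101 / 100) (z1 : -101 / 100 ≤ z) (z2 : z ≤ -99 / 100) (w1 : -201 / 100 ≤ w)
    (w2 : w ≤ -199 / 100) :
    19 / 10 ≤ y ^ 2 - x * z ∧ y ^ 2 - x * z ≤ 21 / 10 ∧ 29 / 10 ≤ z ^ 2 - y * w ∧
      z ^ 2 - y * w ≤ 31 / 10 ∧ |y * z - x * w| ≤ 11 / 10 := by
  have e1 : 98 / 100 ≤ y ^ 2 := by nlinarith
  have e2 : y ^ 2 ≤ 103 / 100 := by nlinarith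
  have e3 : x * z ≤ -98 / 100 := by nlinarith
  have e4 : -103 / 100 ≤ x * z := by nlinarith
  have e5 : 98 / 100 ≤ z ^ 2 := by nlinarith
  have e6 : z ^ 2 ≤ 103 / 100 := by nlinarith
  have e7 : y * w ≤ -197 / 100 := by nlinarith
  have e8 : -204 / 100 ≤ y * w := by nlinarith
  have e9 : y * z ≤ -98 / 100 := by nlinarith
  have e10 : -103 / 100 ≤ y * z := by nlinarith
  have e11 : x * w ≤ -197 / 100 := by nlinarith
  have e12 : -204 / 100 ≤ x * w := by nlinarith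
  refine ⟨by linarith, by linarith, by linarith, by linarith, ?_⟩
  rw [abs_le]
  constructor <;> linarith

theorem boxr (T : ℝ) (hT : 2 ≤ T) (F : ℤ × ℤ × ℤ × ℤ)
    (hF : F ∈ box 1 1 (-1) (-2) (1 / 100) T) (hs : Fd (dD F.1 F.2.1 F.2.2.1 F.2.2.2)) :
    Nf (dD F.1 F.2.1 F.2.2.1 F.2.2.2).natAbs F.1 F.2.1 F.2.2.1 F.2.2.2 ∧ 0 < F.1 ∧
      ((dD F.1 F.2.1 F.2.2.1 F.2.2.2).natAbs : ℝ) ≤ 27 * T ^ 4 ∧
      ((dD F.1 F.2.1 F.2.2.1 F.2.2.2).natAbs : ℤ) = dD F.1 F.2.1 F.2.2.1 F.2.2.2 := by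
  obtain ⟨a, b, c, d⟩ := F
  simp only at hs ⊢
  unfold box at hF
  rw [Finset.mem_product, Finset.mem_product, Finset.mem_product] at hF
  obtain ⟨f1, f2, f3, f4⟩ := hF
  have hT0 : 0 < T := by linarith
  obtain ⟨x, hx, x1, x2⟩ := near _ _ _ hT0 f1
  obtain ⟨y, hy, y1, y2⟩ := near _ _ _ hT0 f2
  obtain ⟨z, hz, z1, z2⟩ := near _ _ _ hT0 f3
  obtain ⟨w, hw, w1, w2⟩ := near _ _ _ hT0 f4
  simp only at hx hy hz hw
  obtain ⟨i1, i2, i3, i4, i5⟩ := ineq x y z w (by linarith) (by linarith) (by linarith)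
    (by linarith) (by linarith) (by linarith) (by linarith) (by linarith)
  have P1 : ((Pc a b c : ℤ) : ℝ) = T ^ 2 * (y ^ 2 - x * z) := by
    unfold Pc; push_cast; rw [hx, hy, hz]; ring
  have R1 : ((Pc d c b : ℤ) : ℝ) = T ^ 2 * (z ^ 2 - y * w) := by
    unfold Pc; push_cast; rw [hw, hy, hz]; ring
  have Q1 : ((Qc a b c d : ℤ) : ℝ) = T ^ 2 * (y * z - x * w) := by
    unfold Qc; push_cast; rw [hx, hy, hz, hw]; ring
  have hT2 : 4 ≤ T ^ 2 := by nlinarith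
  have hT2p : 0 < T ^ 2 := by positivity
  have eD : dD a b c d = 4 * Pc a b c * Pc d c b - Qc a b c d ^ 2 := by
    unfold dD Pc Qc; ring
  have p2 : 2 ≤ Pc a b c := by
    have : (2 : ℝ) ≤ ((Pc a b c : ℤ) : ℝ) := by rw [P1]; nlinarith
    exact_mod_cast this
  have q1 : |Qc a b c d| < Pc a b c := by
    have : |((Qc a b c d : ℤ) : ℝ)| < ((Pc a b c : ℤ) : ℝ) := by
      rw [Q1, P1, abs_mul, abs_of_pos hT2p]
      apply mul_lt_mul_of_pos_left _ hT2p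
      linarith
    exact_mod_cast this
  have r1 : Pc a b c < Pc d c b := by
    have : ((Pc a b c : ℤ) : ℝ) < ((Pc d c b : ℤ) : ℝ) := by
      rw [P1, R1]
      apply mul_lt_mul_of_pos_left _ hT2p
      linarith
    exact_mod_cast this
  have ha : 0 < a := by
    have : (0 : ℝ) < (a : ℝ) := by
      rw [hx]
      apply mul_pos hT0
      linarith
    exact_mod_cast this
  have hpos : 0 < dD a b c d := by
    rw [eD]
    have h1 := abs_lt.1 q1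
    nlinarith
  have hnat : ((dD a b c d).natAbs : ℤ) = dD a b c d := Int.natAbs_of_nonneg hpos.le
  refine ⟨⟨⟨?_, ?_, by omega⟩, p2, q1, r1, ha.ne'⟩, ha, ?_, hnat⟩
  · rw [hnat, eD]
  · apply prm
    rw [← eD]
    exact hs
  · have h1 : ((dD a b c d).natAbs : ℝ) = ((dD a b c d : ℤ) : ℝ) := by
      rw [← hnat]; simp
    rw [h1, eD]
    push_cast
    rw [P1, R1]
    have h3 : 0 ≤ ((Qc a b c d : ℤ) : ℝ) ^ 2 := sq_nonneg _
    have h4 : 4 * (T ^ 2 * (y ^ 2 - x * z)) * (T ^ 2 * (z ^ 2 - y * w)) =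
        4 * T ^ 4 * ((y ^ 2 - x * z) * (z ^ 2 - y * w)) := by ring
    rw [h4]
    have h5 : (y ^ 2 - x * z) * (z ^ 2 - y * w) ≤ 21 / 10 * (31 / 10) :=
      mul_le_mul i2 i4 (by linarith) (by norm_num)
    have h6 : 0 ≤ T ^ 4 := by positivity
    nlinarith

end Pool.Agent.PPL
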