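import Pool.Agent.PPG.Frm
import Pool.Agent.PPL.DefsL

/-!
# PPL/FrmL: the class of a cubic form (primitive Hessian); see `PPG/Frm`
-/

set_option autoImplicit false

namespace Pool.Agent.PPL

open NumberField Pool.Agent.FTA Pool.Agent.FTB Pool.Agent.FTL Pool.Agent.PPG nonZeroDivisors

theorem fd_ex (K : IntermediateField ℚ ℂ) [NumberField K] (h2 : Module.finrank ℚ K = 2)
    (him : ∃ x : K, (x : ℂ).im ≠ 0) (a b c d : ℤ) (h : Nd (aD K) a b c d) :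
    ∃ (w w' : 𝓞 K) (I I' : Ideal (𝓞 K)), FD K a b c d w w' I I' := by
  obtain ⟨w, w', hw, hw', hs, hm⟩ := wel K h2 him _ _ _ h.hD
  obtain ⟨u, v, t, hb⟩ := h.pr
  have hs1 : w + w' = (b : 𝓞 K) * c - a * d := by
    rw [hs]
    unfold Qc
    push_cast
    ring
  have hm1 : w * w' = ((b : 𝓞 K) ^ 2 - a * c) * ((c : 𝓞 K) ^ 2 - b * d) := by
    rw [hm]
    unfold Pc
    push_cast
    ring
  have hb1 : (u : 𝓞 K) * ((b : 𝓞 K) ^ 2 - a * c) + v * ((b : 𝓞 K) * c - a * d) +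
      t * ((c : 𝓞 K) ^ 2 - b * d) = 1 := by
    have h3 := congrArg (fun z : ℤ => (z : 𝓞 K)) hb
    unfold Pc Qc at h3
    push_cast at h3
    rw [← h3]
    ring
  exact ⟨w, w', _, _, hw, hw', hs1, hm1, rfl, rfl, alg_mul _ _ _ w w' _ _ _ hs1 hm1 hb1,
    alg_cube (a : 𝓞 K) b c d w w' u v t hs1 hm1 hb1⟩

theorem fd_nrm (K : IntermediateField ℚ ℂ) [NumberField K] (h2 : Module.finrank ℚ K = 2)
    (him : ∃ x : K, (x : ℂ).im ≠ 0) (a b c d : ℤ) (hn : Nd (aD K) a b c d) (w w' : 𝓞 K)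
    (I I' : Ideal (𝓞 K)) (h : FD K a b c d w w' I I') :
    (Ideal.absNorm I : ℤ) = Pc a b c ∧ (Ideal.absNorm I' : ℤ) = Pc a b c := by
  have h1 := co_norm K h2 him _ _ _ (fd_co K a b c d w w' I I' h)
  rw [← h.cu, hn.hD, syz, map_pow] at h1
  have h3 : (Ideal.absNorm I : ℤ) = Pc a b c := by
    have h4 : ((Ideal.absNorm I : ℕ) : ℤ) ^ 3 = Pc a b c ^ 3 := by
      push_cast at h1
      linarith
    exact (Odd.strictMono_pow (by decide : Odd 3)).injective h4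
  refine ⟨h3, ?_⟩
  have h5 := congrArg Ideal.absNorm h.mm
  have e : (b : 𝓞 K) ^ 2 - a * c = (((Pc a b c).toNat : ℕ) : 𝓞 K) := by
    have h6 : (((Pc a b c).toNat : ℕ) : ℤ) = Pc a b c := Int.toNat_of_nonneg hn.p0.le
    have h7 : (((Pc a b c).toNat : ℕ) : 𝓞 K) = (((((Pc a b c).toNat : ℕ) : ℤ)) : 𝓞 K) := by
      push_cast; rfl
    rw [h7, h6]
    unfold Pc
    push_cast
    ring
  rw [e, nrm_nat K h2, map_mul] at h5
  have h8 : (Ideal.absNorm I' : ℤ) * (Ideal.absNorm I : ℤ) = Pc a b c ^ 2 := by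
    have h9 := congrArg (fun n : ℕ => (n : ℤ)) h5
    push_cast at h9
    rw [h9]
    rw [Int.toNat_of_nonneg hn.p0.le]
  rw [h3] at h8
  have h10 : (Ideal.absNorm I' : ℤ) * Pc a b c = Pc a b c * Pc a b c := by rw [h8]; ring
  exact mul_right_cancel₀ hn.p0.ne' h10

end Pool.Agent.PPL
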