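import Pool.Agent.PPL.UnrL

/-!
# PPL/FibL: the number of strictly reduced cubic forms in a field; see `PPG/Fib`
-/

set_option autoImplicit false

namespace Pool.Agent.PPL

open NumberField Pool.Agent.FTA Pool.Agent.FTB Pool.Agent.FTL Pool.Agent.PPG nonZeroDivisors

theorem kfib (K : IntermediateField ℚ ℂ) [NumberField K]
    (h2 : Module.finrank ℚ K = 2) (him : ∃ x : K, (x : ℂ).im ≠ 0)
    (S : Finset (ℤ × ℤ × ℤ × ℤ))
    (hS : ∀ F ∈ S, Nf (aD K) F.1 F.2.1 F.2.2.1 F.2.2.2 ∧ 0 < F.1) :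
    (S.card : ℝ) ≤ (Nat.card {c : ClassGroup (𝓞 K) // c ^ 3 = 1} : ℝ) - 1 := by
  classical
  have hex : ∀ F : ℤ × ℤ × ℤ × ℤ, ∃ A : ClassGroup (𝓞 K), F ∈ S →
      FC K F.1 F.2.1 F.2.2.1 F.2.2.2 A := by
    intro F
    by_cases hF : F ∈ S
    · obtain ⟨A, hA⟩ := fc_ex K h2 him _ _ _ _ (hS F hF).1.toNd
      exact ⟨A, fun _ => hA⟩
    · exact ⟨1, fun h => absurd h hF⟩
  choose g hg using hex
  have : Fintype (ClassGroup (𝓞 K)) := Fintype.ofFinite _
  have h1 : S.card ≤ (Finset.univ.filter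
      (fun c : ClassGroup (𝓞 K) => c ^ 3 = 1 ∧ c ≠ 1)).card := by
    apply Finset.card_le_card_of_injOn g
    · intro F hF
      have hF' := Finset.mem_coe.1 hF
      apply Finset.mem_coe.2
      rw [Finset.mem_filter]
      exact ⟨Finset.mem_univ _, fc_cube K h2 him _ _ _ _ (hS F hF').1.toNd _ (hg F hF'),
        fc_ne_one K h2 him _ _ _ _ (hS F hF').1 _ (hg F hF')⟩
    · intro F hF F' hF' he
      have hF1 := Finset.mem_coe.1 hF
      have hF2 := Finset.mem_coe.1 hF'
      have k1 := hg F hF1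
      have k2 := hg F' hF2
      rw [← he] at k2
      rcases fc_uniq K h2 him _ _ _ _ _ _ _ _ (hS F hF1).1 (hS F' hF2).1 _ k1 k2 with h | h
      · obtain ⟨e1, e2, e3, e4⟩ := h
        exact Prod.ext e1.symm (Prod.ext e2.symm (Prod.ext e3.symm e4.symm))
      · have p1 := (hS F hF1).2
        have p2 := (hS F' hF2).2
        have p3 := h.1
        omega
  have h3 : Nat.card {c : ClassGroup (𝓞 K) // c ^ 3 = 1} = (Finset.univ.filter
      (fun c : ClassGroup (𝓞 K) => c ^ 3 = 1 ∧ c ≠ 1)).card + 1 := by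
    rw [Nat.card_eq_fintype_card, Fintype.card_subtype]
    have h4 : (Finset.univ.filter (fun c : ClassGroup (𝓞 K) => c ^ 3 = 1)) =
        insert 1 (Finset.univ.filter (fun c : ClassGroup (𝓞 K) => c ^ 3 = 1 ∧ c ≠ 1)) := by
      ext c
      simp only [Finset.mem_filter, Finset.mem_univ, true_and, Finset.mem_insert]
      constructor
      · intro h
        by_cases h5 : c = 1
        · exact Or.inl h5
        · exact Or.inr ⟨h, h5⟩
      · rintro (rfl | ⟨h, -⟩)
        · exact one_pow 3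
        · exact h
    rw [h4, Finset.card_insert_of_notMem]
    simp
  have h5 : S.card + 1 ≤ Nat.card {c : ClassGroup (𝓞 K) // c ^ 3 = 1} := by
    rw [h3]; omega
  have h6 : ((S.card + 1 : ℕ) : ℝ) ≤ (Nat.card {c : ClassGroup (𝓞 K) // c ^ 3 = 1} : ℝ) := by
    exact_mod_cast h5
  push_cast at h6
  linarith

end Pool.Agent.PPL
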