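import Pool.Agent.PPB.DefsB
import Pool.Agent.PPB.Api
import Pool.Agent.PPB.Cg
import Pool.Agent.PPB.Loc

/-!
# PPL/SmQL: one middle prime, for a general residue class (see `PPB/SmQ`)
-/

set_option autoImplicit false

namespace Pool.Agent.PPL

open Pool.Agent.PPB

/-- congruence of quadruples modulo `m` -/
def cgr (m : ℕ) (a1 b1 c1 d1 a b c d : ℤ) : Prop :=
  (m : ℤ) ∣ a - a1 ∧ (m : ℤ) ∣ b - b1 ∧ (m : ℤ) ∣ c - c1 ∧ (m : ℤ) ∣ d - d1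

theorem smQ (Mo : ℕ) (hMo0 : 0 < Mo) (a1 b1 c1 d1 : ℤ) (a0 b0 c0 d0 η T : ℝ) (hT : 0 ≤ η * T)
    (q : ℕ) (hq : q.Prime) (h : 3 < q) (hcop : Nat.Coprime Mo (q ^ 2)) :
    nb (box a0 b0 c0 d0 η T) (fun a b c d => cgr Mo a1 b1 c1 d1 a b c d ∧ (q : ℤ) ^ 2 ∣ dD a b c d) ≤
      5 * (q : ℝ) ^ 6 * (2 * η * T / (Mo * (q : ℝ) ^ 2) + 1) ^ 4 := by
  classical
  have hq0 : 0 < q := hq.pos
  have hN0 : 0 < q ^ 2 := pow_pos hq0 2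
  have hNe : NeZero (q ^ 2) := ⟨hN0.ne'⟩
  have hcop' : IsCoprime (Mo : ℤ) ((q ^ 2 : ℕ) : ℤ) := Nat.isCoprime_iff_coprime.2 hcop
  obtain ⟨u, v, huv⟩ := hcop'
  have hcr : ∀ f x a : ℤ, (Mo : ℤ) ∣ a - f → ((q ^ 2 : ℕ) : ℤ) ∣ a - x →
      ((Mo * q ^ 2 : ℕ) : ℤ) ∣ a - (f * (v * ((q ^ 2 : ℕ) : ℤ)) + x * (u * (Mo : ℤ))) := by
    intro f x a h1 h2
    obtain ⟨k, hk⟩ := h1
    obtain ⟨l, hl⟩ := h2
    refine ⟨k * v + l * u, ?_⟩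
    rw [Nat.cast_mul]
    have e : a - (f * (v * ((q ^ 2 : ℕ) : ℤ)) + x * (u * (Mo : ℤ)))
        = a - a * (u * (Mo : ℤ) + v * ((q ^ 2 : ℕ) : ℤ))
          + (a - f) * (v * ((q ^ 2 : ℕ) : ℤ)) + (a - x) * (u * (Mo : ℤ)) := by ring
    rw [e, huv, hk, hl]
    ring
  have hval : ∀ a : ℤ, ((q ^ 2 : ℕ) : ℤ) ∣ a - (((a : ZMod (q ^ 2)).val : ℕ) : ℤ) := by
    intro a
    rw [← ZMod.intCast_eq_intCast_iff_dvd_sub]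
    simp
  set I : Finset (ZMod (q ^ 2) × ZMod (q ^ 2) × ZMod (q ^ 2) × ZMod (q ^ 2)) :=
    Finset.univ.filter (fun x => dD x.1 x.2.1 x.2.2.1 x.2.2.2 = 0) with hI
  have hIcard : I.card ≤ 5 * q ^ 6 := by
    have := loc q hq (by omega)
    rwa [Nat.card_eq_fintype_card, Fintype.card_subtype] at this
  set CR : ℤ → ZMod (q ^ 2) → ℤ := fun f x =>
    f * (v * ((q ^ 2 : ℕ) : ℤ)) + (x.val : ℤ) * (u * (Mo : ℤ)) with hCR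
  have h1 := nb_sum I (box a0 b0 c0 d0 η T)
    (fun a b c d => cgr Mo a1 b1 c1 d1 a b c d ∧ (q : ℤ) ^ 2 ∣ dD a b c d)
    (fun x a b c d => ((Mo * q ^ 2 : ℕ) : ℤ) ∣ a - CR a1 x.1 ∧
      ((Mo * q ^ 2 : ℕ) : ℤ) ∣ b - CR b1 x.2.1 ∧ ((Mo * q ^ 2 : ℕ) : ℤ) ∣ c - CR c1 x.2.2.1 ∧
      ((Mo * q ^ 2 : ℕ) : ℤ) ∣ d - CR d1 x.2.2.2)
    (by
      rintro ⟨a, b, c, d⟩ _ ⟨⟨ha, hb, hc, hd⟩, hdvd⟩
      refine ⟨((a : ZMod (q ^ 2)), (b : ZMod (q ^ 2)), (c : ZMod (q ^ 2)), (d : ZMod (q ^ 2))),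
        ?_, ?_, ?_, ?_, ?_⟩
      · rw [hI, Finset.mem_filter]
        refine ⟨Finset.mem_univ _, ?_⟩
        have e : dD (a : ZMod (q ^ 2)) (b : ZMod (q ^ 2)) (c : ZMod (q ^ 2)) (d : ZMod (q ^ 2))
            = ((dD a b c d : ℤ) : ZMod (q ^ 2)) := by
          unfold dD
          push_cast
          ring
        show dD (a : ZMod (q ^ 2)) (b : ZMod (q ^ 2)) (c : ZMod (q ^ 2)) (d : ZMod (q ^ 2)) = 0
        rw [e, ZMod.intCast_zmod_eq_zero_iff_dvd]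
        rw [Nat.cast_pow]
        exact hdvd
      · exact hcr a1 _ a ha (hval a)
      · exact hcr b1 _ b hb (hval b)
      · exact hcr c1 _ c hc (hval c)
      · exact hcr d1 _ d hd (hval d))
  refine h1.trans ?_
  have h2 : ∀ x ∈ I, nb (box a0 b0 c0 d0 η T) (fun a b c d =>
      ((Mo * q ^ 2 : ℕ) : ℤ) ∣ a - CR a1 x.1 ∧
      ((Mo * q ^ 2 : ℕ) : ℤ) ∣ b - CR b1 x.2.1 ∧ ((Mo * q ^ 2 : ℕ) : ℤ) ∣ c - CR c1 x.2.2.1 ∧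
      ((Mo * q ^ 2 : ℕ) : ℤ) ∣ d - CR d1 x.2.2.2) ≤
      (2 * η * T / (Mo * (q : ℝ) ^ 2) + 1) ^ 4 := by
    intro x _
    have h3 := (cg4 a0 b0 c0 d0 η T hT (Mo * q ^ 2) (Nat.mul_pos hMo0 hN0) (CR a1 x.1)
      (CR b1 x.2.1) (CR c1 x.2.2.1) (CR d1 x.2.2.2)).1
    have e : ((Mo * q ^ 2 : ℕ) : ℝ) = (Mo : ℝ) * (q : ℝ) ^ 2 := by push_cast; ring
    rw [e] at h3
    exact h3
  refine (Finset.sum_le_sum h2).trans ?_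
  rw [Finset.sum_const, nsmul_eq_mul]
  have h4 : (0 : ℝ) ≤ (2 * η * T / (Mo * (q : ℝ) ^ 2) + 1) ^ 4 := by
    have : (0 : ℝ) ≤ 2 * η * T / (Mo * (q : ℝ) ^ 2) + 1 := by
      have h5 : (0 : ℝ) ≤ 2 * η * T := by linarith
      exact add_nonneg (div_nonneg h5 (mul_nonneg (Nat.cast_nonneg _)
        (pow_nonneg (Nat.cast_nonneg _) 2))) zero_le_one
    exact pow_nonneg this 4
  have h6 : (I.card : ℝ) ≤ 5 * (q : ℝ) ^ 6 := by exact_mod_cast hIcard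
  exact mul_le_mul_of_nonneg_right h6 h4

end Pool.Agent.PPL
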