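import Pool.Agent.PPB.DefsB
import Pool.Agent.PPB.Api
import Pool.Agent.PPB.Cg
import Pool.Agent.PPL.SmQL

/-!
# PPL/SmSL: small and middle primes together, for a general residue class (see `PPB/SmS`)
-/

set_option autoImplicit false

namespace Pool.Agent.PPL

open Pool.Agent.PPB

private lemma SmS_tel (n : ℕ) (hn : 320 ≤ n) :
    ∑ q ∈ Finset.Icc 321 n, (1 : ℝ) / (q : ℝ) ^ 2 ≤ 1 / 320 - 1 / n := by
  induction n, hn using Nat.le_induction with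
  | base => simp
  | succ n hn ih =>
    rw [Finset.sum_Icc_succ_top (by omega)]
    have hn0 : (0 : ℝ) < n := by exact_mod_cast (by omega : 0 < n)
    have h1 : (1 : ℝ) / ((n + 1 : ℕ) : ℝ) ^ 2 ≤ 1 / n - 1 / ((n + 1 : ℕ) : ℝ) := by
      push_cast
      rw [div_sub_div _ _ hn0.ne' (by positivity), div_le_div_iff₀ (by positivity) (by positivity)]
      nlinarith
    linarith

theorem dD_cgr (m : ℕ) (a1 b1 c1 d1 a b c d : ℤ) (h : cgr m a1 b1 c1 d1 a b c d) :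
    (m : ℤ) ∣ dD a b c d - dD a1 b1 c1 d1 := by
  obtain ⟨⟨x, hx⟩, ⟨y, hy⟩, ⟨z, hz⟩, ⟨w, hw⟩⟩ := h
  have ha : a = a1 + (m : ℤ) * x := by linarith
  have hb : b = b1 + (m : ℤ) * y := by linarith
  have hc : c = c1 + (m : ℤ) * z := by linarith
  have hd : d = d1 + (m : ℤ) * w := by linarith
  have h1 : dD a b c d ≡ dD a1 b1 c1 d1 [ZMOD (m : ℤ)] := by
    have ea : a ≡ a1 [ZMOD (m : ℤ)] := (Int.modEq_iff_dvd.2 ⟨-x, by rw [ha]; ring⟩)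
    have eb : b ≡ b1 [ZMOD (m : ℤ)] := (Int.modEq_iff_dvd.2 ⟨-y, by rw [hb]; ring⟩)
    have ec : c ≡ c1 [ZMOD (m : ℤ)] := (Int.modEq_iff_dvd.2 ⟨-z, by rw [hc]; ring⟩)
    have ed : d ≡ d1 [ZMOD (m : ℤ)] := (Int.modEq_iff_dvd.2 ⟨-w, by rw [hd]; ring⟩)
    unfold dD
    gcongr
  exact h1.symm.dvd

theorem smS (N Mo : ℕ) (hN : 320 ≤ N) (hMo0 : 0 < Mo)
    (hMsq : ∀ q : ℕ, q.Prime → q ≤ N → q ^ 2 ∣ Mo)
    (hMc : ∀ q : ℕ, q.Prime → N < q → Nat.Coprime Mo (q ^ 2)) (a1 b1 c1 d1 : ℤ)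
    (hF0 : ∀ q : ℕ, q.Prime → q ≠ 2 → ¬ ((q : ℤ) ^ 2 ∣ dD a1 b1 c1 d1))
    (a0 b0 c0 d0 η : ℝ) (hη : 0 < η) : ∃ T0 : ℝ, 1 ≤ T0 ∧ ∀ T : ℝ, T0 ≤ T →
    (1 / 4) * (2 * η * T / Mo) ^ 4 ≤
      nb (box a0 b0 c0 d0 η T) (fun a b c d => cgr Mo a1 b1 c1 d1 a b c d ∧
        ∀ q : ℕ, q.Prime → q ≠ 2 → (q : ℝ) ^ 3 ≤ T → ¬ ((q : ℤ) ^ 2 ∣ dD a b c d)) := by
  have hM : (0 : ℝ) < (Mo : ℝ) := by exact_mod_cast hMo0
  obtain ⟨T0, hT0⟩ : ∃ x : ℝ, x = 320 + (Mo : ℝ) ^ 3 / (8 * η ^ 3) + 7 * (Mo : ℝ) / (2 * η) := ⟨_, rfl⟩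
  have p1 : 0 ≤ (Mo : ℝ) ^ 3 / (8 * η ^ 3) := by positivity
  have p2 : 0 ≤ 7 * (Mo : ℝ) / (2 * η) := by positivity
  refine ⟨T0, by linarith, ?_⟩
  intro T hT
  have hT320 : 320 ≤ T := by linarith
  have hTpos : 0 < T := by linarith
  have hT3 : (Mo : ℝ) ^ 3 ≤ 8 * η ^ 3 * T := by
    have h1 : (Mo : ℝ) ^ 3 / (8 * η ^ 3) ≤ T := by linarith
    rw [div_le_iff₀ (by positivity)] at h1
    linarith
  have hT7 : 7 * (Mo : ℝ) ≤ 2 * η * T := by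
    have h1 : 7 * (Mo : ℝ) / (2 * η) ≤ T := by linarith
    rw [div_le_iff₀ (by positivity)] at h1
    linarith
  have hML : (Mo : ℝ) ≤ 2 * η * T := by linarith
  have hηT : 0 ≤ η * T := by positivity
  obtain ⟨x, hx⟩ : ∃ x : ℝ, x = 2 * η * T / Mo := ⟨_, rfl⟩
  have hx7 : 7 ≤ x := by
    rw [hx, le_div_iff₀ hM]
    exact hT7
  have hcg := (cg4 a0 b0 c0 d0 η T hηT Mo hMo0 a1 b1 c1 d1).2 hML
  have e1 : nb (box a0 b0 c0 d0 η T) (fun a b c d => (Mo : ℤ) ∣ a - a1 ∧ (Mo : ℤ) ∣ b - b1 ∧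
      (Mo : ℤ) ∣ c - c1 ∧ (Mo : ℤ) ∣ d - d1) ≤
      nb (box a0 b0 c0 d0 η T) (cgr Mo a1 b1 c1 d1) := by
    apply nb_mono
    intro F _ hF
    exact hF
  rw [← hx] at hcg
  -- the bad forms
  obtain ⟨I, hI⟩ : ∃ I : Finset ℕ, I = (Finset.Icc 321 ⌊T⌋₊).filter
    (fun q : ℕ => N < q ∧ q.Prime ∧ (q : ℝ) ^ 3 ≤ T) := ⟨_, rfl⟩
  have h2 : nb (box a0 b0 c0 d0 η T) (cgr Mo a1 b1 c1 d1) ≤
      nb (box a0 b0 c0 d0 η T) (fun a b c d => cgr Mo a1 b1 c1 d1 a b c d ∧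
        ∀ q : ℕ, q.Prime → q ≠ 2 → (q : ℝ) ^ 3 ≤ T → ¬ ((q : ℤ) ^ 2 ∣ dD a b c d)) +
      nb (box a0 b0 c0 d0 η T) (fun a b c d => cgr Mo a1 b1 c1 d1 a b c d ∧
        ∃ q : ℕ, q.Prime ∧ q ≠ 2 ∧ (q : ℝ) ^ 3 ≤ T ∧ ((q : ℤ) ^ 2 ∣ dD a b c d)) := by
    apply nb_add
    intro F _ hF
    by_cases h : ∀ q : ℕ, q.Prime → q ≠ 2 → (q : ℝ) ^ 3 ≤ T →
        ¬ ((q : ℤ) ^ 2 ∣ dD F.1 F.2.1 F.2.2.1 F.2.2.2)
    · exact Or.inl ⟨hF, h⟩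
    · push Not at h
      exact Or.inr ⟨hF, h⟩
  have h3 : nb (box a0 b0 c0 d0 η T) (fun a b c d => cgr Mo a1 b1 c1 d1 a b c d ∧
        ∃ q : ℕ, q.Prime ∧ q ≠ 2 ∧ (q : ℝ) ^ 3 ≤ T ∧ ((q : ℤ) ^ 2 ∣ dD a b c d)) ≤
      ∑ q ∈ I, nb (box a0 b0 c0 d0 η T)
        (fun a b c d => cgr Mo a1 b1 c1 d1 a b c d ∧ (q : ℤ) ^ 2 ∣ dD a b c d) := by
    apply nb_sum
    intro F _ hF
    obtain ⟨hfs, q, hq, hq2, hq3, hdvd⟩ := hF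
    have hNq : N < q := by
      by_contra hcon
      apply hF0 q hq hq2
      have h7 := dD_cgr _ _ _ _ _ _ _ _ _ hfs
      have h8 : (q : ℤ) ^ 2 ∣ (Mo : ℤ) := by exact_mod_cast hMsq q hq (by omega)
      have h9 := dvd_sub hdvd (h8.trans h7)
      rwa [sub_sub_cancel] at h9
    refine ⟨q, ?_, hfs, hdvd⟩
    rw [hI, Finset.mem_filter, Finset.mem_Icc]
    refine ⟨⟨?_, ?_⟩, hNq, hq, hq3⟩
    · omega
    · apply Nat.le_floor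
      have hq1 : (1 : ℝ) ≤ q := by exact_mod_cast hq.one_lt.le
      calc (q : ℝ) = (q : ℝ) ^ 1 := (pow_one _).symm
        _ ≤ (q : ℝ) ^ 3 := pow_le_pow_right₀ hq1 (by norm_num)
        _ ≤ T := hq3
  have h4 : ∀ q ∈ I, nb (box a0 b0 c0 d0 η T)
        (fun a b c d => cgr Mo a1 b1 c1 d1 a b c d ∧ (q : ℤ) ^ 2 ∣ dD a b c d) ≤
      80 * x ^ 4 * (1 / (q : ℝ) ^ 2) := by
    intro q hqI
    rw [hI, Finset.mem_filter, Finset.mem_Icc] at hqI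
    obtain ⟨⟨hq1, -⟩, hNq, hq, hq3⟩ := hqI
    refine (smQ Mo hMo0 a1 b1 c1 d1 a0 b0 c0 d0 η T hηT q hq (by omega) (hMc q hq hNq)).trans ?_
    have hq0 : (0 : ℝ) < q := by exact_mod_cast hq.pos
    have hMq : (Mo : ℝ) * (q : ℝ) ^ 2 ≤ 2 * η * T := by
      have j1 : ((Mo : ℝ) * (q : ℝ) ^ 2) ^ 3 ≤ (2 * η * T) ^ 3 := by
        calc ((Mo : ℝ) * (q : ℝ) ^ 2) ^ 3 = (Mo : ℝ) ^ 3 * ((q : ℝ) ^ 3) ^ 2 := by ring
          _ ≤ (8 * η ^ 3 * T) * T ^ 2 := by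
              apply mul_le_mul hT3 _ (by positivity) (by positivity)
              exact pow_le_pow_left₀ (by positivity) hq3 2
          _ = (2 * η * T) ^ 3 := by ring
      exact le_of_pow_le_pow_left₀ (by norm_num) (by positivity) j1
    have hy : 2 * η * T / (Mo * (q : ℝ) ^ 2) = x / (q : ℝ) ^ 2 := by
      rw [hx, div_div]
    have hy1 : 1 ≤ x / (q : ℝ) ^ 2 := by
      rw [← hy, le_div_iff₀ (mul_pos hM (pow_pos hq0 2)), one_mul]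
      exact hMq
    rw [hy]
    calc 5 * (q : ℝ) ^ 6 * (x / (q : ℝ) ^ 2 + 1) ^ 4 ≤
        5 * (q : ℝ) ^ 6 * (2 * (x / (q : ℝ) ^ 2)) ^ 4 := by
          apply mul_le_mul_of_nonneg_left _ (by positivity)
          exact pow_le_pow_left₀ (by linarith) (by linarith) 4
      _ = 80 * x ^ 4 * (1 / (q : ℝ) ^ 2) := by
          field_simp
          ring
  have h5 : ∑ q ∈ I, nb (box a0 b0 c0 d0 η T)
        (fun a b c d => cgr Mo a1 b1 c1 d1 a b c d ∧ (q : ℤ) ^ 2 ∣ dD a b c d) ≤ 80 * x ^ 4 * (1 / 320) := by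
    refine (Finset.sum_le_sum h4).trans ?_
    rw [← Finset.mul_sum]
    apply mul_le_mul_of_nonneg_left _ (by positivity)
    have hfl : 320 ≤ ⌊T⌋₊ := by
      apply Nat.le_floor
      push_cast
      exact hT320
    have hfl0 : (0 : ℝ) < (⌊T⌋₊ : ℝ) := by exact_mod_cast (by omega : 0 < ⌊T⌋₊)
    calc ∑ q ∈ I, (1 : ℝ) / (q : ℝ) ^ 2 ≤ ∑ q ∈ Finset.Icc 321 ⌊T⌋₊, (1 : ℝ) / (q : ℝ) ^ 2 := by
          apply Finset.sum_le_sum_of_subset_of_nonneg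
          · rw [hI]; exact Finset.filter_subset _ _
          · intro q _ _
            exact div_nonneg zero_le_one (pow_nonneg (Nat.cast_nonneg q) 2)
      _ ≤ 1 / 320 - 1 / (⌊T⌋₊ : ℝ) := SmS_tel _ hfl
      _ ≤ 1 / 320 := by
          have : 0 < 1 / (⌊T⌋₊ : ℝ) := by positivity
          linarith
  have h6 : x ^ 4 / 2 ≤ (x - 1) ^ 4 := by
    have j1 : 6 / 7 * x ≤ x - 1 := by linarith
    have j2 : (6 / 7 * x) ^ 4 ≤ (x - 1) ^ 4 := pow_le_pow_left₀ (by linarith) j1 4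
    have j3 : (6 / 7 * x) ^ 4 = 1296 / 2401 * x ^ 4 := by ring
    have j4 : 0 ≤ x ^ 4 := by positivity
    linarith
  rw [← hx]
  linarith

end Pool.Agent.PPL
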