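import Pool.Agent.PPB.DefsB
import Pool.Agent.PPB.Api
import Pool.Agent.PPB.Eta
import Pool.Agent.PPB.Tal
import Pool.Agent.PPL.SmSL
import Pool.Agent.PPL.Fdm

/-!
# PPL/FinL: forms with a fundamental discriminant in a residue class (see `PPB/FinB`)

The residue class of the form `(0, 1, c, d)`, whose `D` is `3 c² - 4 d`, modulo `(N!)²`.
-/

set_option autoImplicit false

namespace Pool.Agent.PPL

open Pool.Agent.PPB

private theorem finB_pw (C c T : ℝ) (hc : 0 < c) (hT : 1 ≤ T) (hT2 : (|C| / c) ^ 4 ≤ T) :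
    C * T ^ ((15 : ℝ) / 4) ≤ c * T ^ 4 := by
  have hT0 : 0 < T := by linarith
  have e1 : T ^ 4 = T ^ ((15 : ℝ) / 4) * T ^ ((1 : ℝ) / 4) := by
    rw [← Real.rpow_add hT0, ← Real.rpow_natCast]
    norm_num
  have hq : |C| / c ≤ T ^ ((1 : ℝ) / 4) := by
    have h0 : 0 ≤ |C| / c := by positivity
    have e2 : |C| / c = ((|C| / c) ^ 4) ^ ((1 : ℝ) / 4) := by
      rw [← Real.rpow_natCast, ← Real.rpow_mul h0]
      norm_num
    rw [e2]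
    exact Real.rpow_le_rpow (by positivity) hT2 (by norm_num)
  have hp : 0 < T ^ ((15 : ℝ) / 4) := Real.rpow_pos_of_pos hT0 _
  have h3 : C ≤ c * T ^ ((1 : ℝ) / 4) := by
    rw [div_le_iff₀ hc] at hq
    calc C ≤ |C| := le_abs_self C
      _ ≤ T ^ ((1 : ℝ) / 4) * c := hq
      _ = c * T ^ ((1 : ℝ) / 4) := by ring
  calc C * T ^ ((15 : ℝ) / 4) ≤ (c * T ^ ((1 : ℝ) / 4)) * T ^ ((15 : ℝ) / 4) :=
        mul_le_mul_of_nonneg_right h3 hp.le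
    _ = c * T ^ 4 := by
        rw [e1]
        ring

/-- every `D = 0, 3` modulo 4 is the discriminant of a form `(0, 1, c, d)` -/
private theorem prin (D0 : ℤ) (h : Fd D0) : ∃ c1 d1 : ℤ, dD 0 1 c1 d1 = D0 := by
  have h1 : D0 % 4 = 3 ∨ D0 % 4 = 0 := by
    have := h.2
    omega
  rcases h1 with h1 | h1
  · refine ⟨1, (3 - D0) / 4, ?_⟩
    unfold dD
    have : 4 * ((3 - D0) / 4) = 3 - D0 := by omega
    linarith
  · refine ⟨0, -D0 / 4, ?_⟩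
    unfold dD
    have : 4 * (-D0 / 4) = -D0 := by omega
    linarith

theorem finB (m : ℕ) (hm : 0 < m) (D0 : ℤ) (hF : Fd D0) (a0 b0 c0 d0 η : ℝ) (ha : a0 ≠ 0)
    (hA0 : 0 < hA a0 b0 c0) (hD0 : 0 < dD a0 b0 c0 d0) (hη : 0 < η) :
    ∃ c : ℝ, 0 < c ∧ ∃ T0 : ℝ, ∀ T : ℝ, T0 ≤ T →
      c * T ^ 4 ≤ nb (box a0 b0 c0 d0 η T)
        (fun a b c d => Fd (dD a b c d) ∧ (m : ℤ) ∣ dD a b c d - D0) := by
  obtain ⟨c1, d1, hcd⟩ := prin D0 hF
  obtain ⟨N, hN⟩ : ∃ N : ℕ, N = 320 + m := ⟨_, rfl⟩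
  obtain ⟨Mo, hMoD⟩ : ∃ Mo : ℕ, Mo = (Nat.factorial N) ^ 2 := ⟨_, rfl⟩
  have hMo0 : 0 < Mo := by
    rw [hMoD]
    exact pow_pos (Nat.factorial_pos N) 2
  have hMsq : ∀ q : ℕ, 0 < q → q ≤ N → q ^ 2 ∣ Mo := by
    intro q h1 h2
    rw [hMoD]
    exact pow_dvd_pow_of_dvd (Nat.dvd_factorial h1 h2) 2
  have hMc : ∀ q : ℕ, q.Prime → N < q → Nat.Coprime Mo (q ^ 2) := by
    intro q hq h2
    rw [hMoD]
    apply Nat.Coprime.pow
    apply Nat.Coprime.symm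
    rw [Nat.Prime.coprime_iff_not_dvd hq, Nat.Prime.dvd_factorial hq]
    omega
  have hM16 : (16 : ℤ) ∣ (Mo : ℤ) := by
    have := hMsq 4 (by norm_num) (by omega)
    exact_mod_cast this
  have hMm : (m : ℤ) ∣ (Mo : ℤ) := by
    have h1 := hMsq m hm (by omega)
    have h2 : m ∣ Mo := (Dvd.intro_left (m ^ 1) (by ring : m ^ 1 * m = m ^ 2)).trans h1
    exact_mod_cast h2
  obtain ⟨η', k, K, hη', hG⟩ := eta a0 b0 c0 d0 η ha hA0 hD0 hη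
  have hη0 : 0 < η' := hG.1
  obtain ⟨T1, hT1, h1⟩ := smS N Mo (by omega) hMo0 (fun q hq h => hMsq q hq.pos h) hMc 0 1 c1 d1
    (by rw [hcd]; exact hF.1) a0 b0 c0 d0 η' hη0
  obtain ⟨C, T2, hT2, h2⟩ := tal a0 b0 c0 d0 η' k K hG
  have hMo : (0 : ℝ) < (Mo : ℝ) := by exact_mod_cast hMo0
  set c : ℝ := (1 / 8) * (2 * η' / Mo) ^ 4 with hc
  have hcp : 0 < c := by positivity
  refine ⟨c, hcp, max (max T1 T2) ((|C| / c) ^ 4), ?_⟩
  intro T hT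
  have hTa : T1 ≤ T := ((le_max_left T1 T2).trans (le_max_left _ _)).trans hT
  have hTb : T2 ≤ T := ((le_max_right T1 T2).trans (le_max_left _ _)).trans hT
  have hTc : (|C| / c) ^ 4 ≤ T := (le_max_right _ _).trans hT
  have hT1' : 1 ≤ T := hT1.trans hTa
  have e1 := h1 T hTa
  have e2 := h2 T hTb
  have e3 := finB_pw C c T hcp hT1' hTc
  have e4 : (1 / 4 : ℝ) * (2 * η' * T / Mo) ^ 4 = 2 * (c * T ^ 4) := by
    rw [hc]
    field_simp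
    ring
  have hadd := nb_add (box a0 b0 c0 d0 η' T) (fun a b c d => cgr Mo 0 1 c1 d1 a b c d ∧
        ∀ q : ℕ, q.Prime → q ≠ 2 → (q : ℝ) ^ 3 ≤ T → ¬ ((q : ℤ) ^ 2 ∣ dD a b c d))
    (fun a b c d => Fd (dD a b c d) ∧ (m : ℤ) ∣ dD a b c d - D0)
    (fun a b c d => ∃ q : ℕ, q.Prime ∧ T < (q : ℝ) ^ 3 ∧ (q : ℤ) ^ 2 ∣ dD a b c d) (by
      rintro F - ⟨hf1, hf2⟩
      by_cases hR : ∃ q : ℕ, q.Prime ∧ T < (q : ℝ) ^ 3 ∧
          (q : ℤ) ^ 2 ∣ dD F.1 F.2.1 F.2.2.1 F.2.2.2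
      · exact Or.inr hR
      · left
        have h5 := dD_cgr _ _ _ _ _ _ _ _ _ hf1
        rw [hcd] at h5
        refine ⟨⟨?_, ?_⟩, hMm.trans h5⟩
        · intro q hq hq2 hd
          rcases le_or_gt ((q : ℝ) ^ 3) T with h | h
          · exact hf2 q hq hq2 h hd
          · exact hR ⟨q, hq, h, hd⟩
        · have h6 := hM16.trans h5
          have h7 := hF.2
          omega)
  have hsub := nb_sub (box a0 b0 c0 d0 η' T) (box a0 b0 c0 d0 η T)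
    (fun a b c d => Fd (dD a b c d) ∧ (m : ℤ) ∣ dD a b c d - D0)
    (box_mono a0 b0 c0 d0 η η' T hη' (by linarith))
  linarith

end Pool.Agent.PPL
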