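import Pool.Agent.PPG.Mom
import Pool.Agent.PPL.FibL
import Pool.Agent.PPL.BoxL
import Pool.Agent.PPL.FinL

/-!
# PPL/MomL: the first moment of `|Cl(K)[3]| - 1` over the fields with `D_K` in a residue class is
at least `c X`
-/

set_option autoImplicit false

namespace Pool.Agent.PPL

open NumberField Pool.Agent.FTA Pool.Agent.FTB Pool.Agent.FTL Pool.Agent.PPB Pool.Agent.PPG
  nonZeroDivisors

/-- the imaginary quadratic fields with `|D_K| ≤ n` and `|D_K| = D0` modulo `m` -/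
def IR (m : ℕ) (D0 : ℤ) (n : ℕ) : Set (IntermediateField ℚ ℂ) :=
  {K | K ∈ IQ n ∧ (m : ℤ) ∣ (aD K : ℤ) - D0}

theorem irFin (m : ℕ) (D0 : ℤ) (n : ℕ) : (IR m D0 n).Finite :=
  (famFin n).subset fun _ h => h.1

theorem mom (m : ℕ) (hm : 0 < m) (D0 : ℤ) (hF : Fd D0) :
    ∃ c : ℝ, 0 < c ∧ ∃ X0 : ℝ, ∀ X : ℝ, X0 ≤ X →
      c * X ≤ ∑ᶠ K ∈ IR m D0 ⌊X⌋₊,
        ((Nat.card {c : ClassGroup (𝓞 K) // c ^ 3 = 1} : ℝ) - 1) := by
  classical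
  obtain ⟨c, hc, T0, hT0⟩ := finB m hm D0 hF 1 1 (-1) (-2) (1 / 100) one_ne_zero
    (by unfold hA; norm_num) (by unfold dD; norm_num) (by norm_num)
  refine ⟨c / 27, by positivity, max 1 (27 * (max T0 2) ^ 4), fun X hX => ?_⟩
  have hX1 : 1 ≤ X := (le_max_left _ _).trans hX
  have hX2 : 27 * (max T0 2) ^ 4 ≤ X := (le_max_right _ _).trans hX
  have hX0 : 0 < X := by linarith
  obtain ⟨T, hTd⟩ : ∃ T : ℝ, T = (X / 27) ^ ((1 : ℝ) / 4) := ⟨_, rfl⟩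
  have hT4 : T ^ 4 = X / 27 := by
    rw [hTd, ← Real.rpow_natCast, ← Real.rpow_mul (by positivity)]
    norm_num
  have hTp : 0 < T := by rw [hTd]; positivity
  have hTm : max T0 2 ≤ T := by
    by_contra hlt
    have hlt' := not_le.1 hlt
    have h1 : T ^ 4 < (max T0 2) ^ 4 := pow_lt_pow_left₀ hlt' hTp.le (by norm_num)
    rw [hT4] at h1
    linarith
  have hTT : T0 ≤ T := (le_max_left _ _).trans hTm
  have hT2 : 2 ≤ T := (le_max_right _ _).trans hTm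
  have hnb := hT0 T hTT
  obtain ⟨S, hSm, hSc⟩ := nb_ex _ _ _ hnb
  have hmem : ∀ F ∈ S, Nf (dD F.1 F.2.1 F.2.2.1 F.2.2.2).natAbs F.1 F.2.1 F.2.2.1 F.2.2.2 ∧
      0 < F.1 ∧ ((dD F.1 F.2.1 F.2.2.1 F.2.2.2).natAbs : ℝ) ≤ 27 * T ^ 4 ∧
      1 ≤ (dD F.1 F.2.1 F.2.2.1 F.2.2.2).natAbs ∧
      Fd ((dD F.1 F.2.1 F.2.2.1 F.2.2.2).natAbs : ℤ) ∧
      (m : ℤ) ∣ ((dD F.1 F.2.1 F.2.2.1 F.2.2.2).natAbs : ℤ) - D0 := by
    intro F hF
    obtain ⟨hF1, hF2⟩ := hSm F hF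
    have h1 := boxr T hT2 F hF1 hF2.1
    refine ⟨h1.1, h1.2.1, h1.2.2.1, ?_, ?_, ?_⟩
    · have := nf_size _ _ _ _ _ h1.1
      have := h1.1.p2
      omega
    · rw [h1.2.2.2]; exact hF2.1
    · rw [h1.2.2.2]; exact hF2.2
  have hmap : ∀ F ∈ S, Kf (dD F.1 F.2.1 F.2.2.1 F.2.2.2).natAbs ∈
      (irFin m D0 ⌊X⌋₊).toFinset := by
    intro F hF
    obtain ⟨h1, h3, h5, h6, h7, h8⟩ := hmem F hF
    obtain ⟨hn, h2, him, hd⟩ := kf_fd _ h6 h7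
    rw [Set.Finite.mem_toFinset]
    refine ⟨⟨hn, h2, him, ?_⟩, ?_⟩
    · rw [hd]
      apply Nat.le_floor
      rw [hT4] at h5
      linarith
    · rw [hd]
      exact h8
  have hcard := Finset.card_eq_sum_card_fiberwise hmap
  have hfib : ∀ K ∈ (irFin m D0 ⌊X⌋₊).toFinset,
      ((S.filter (fun F => Kf (dD F.1 F.2.1 F.2.2.1 F.2.2.2).natAbs = K)).card : ℝ) ≤
      (Nat.card {c : ClassGroup (𝓞 K) // c ^ 3 = 1} : ℝ) - 1 := by
    intro K hK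
    rw [Set.Finite.mem_toFinset] at hK
    obtain ⟨⟨hn, h2, him, -⟩, -⟩ := hK
    apply kfib K h2 him
    intro F hF
    rw [Finset.mem_filter] at hF
    obtain ⟨hF1, hF2⟩ := hF
    obtain ⟨h1, h3, h5, h6, h7, h8⟩ := hmem F hF1
    obtain ⟨hn', h2', him', hd⟩ := kf_fd _ h6 h7
    subst hF2
    refine ⟨?_, h3⟩
    rw [hd]
    exact h1
  rw [finsum_mem_eq_finite_toFinset_sum _ (irFin _ _ _)]
  have h9 : (S.card : ℝ) ≤ ∑ K ∈ (irFin m D0 ⌊X⌋₊).toFinset,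
      ((Nat.card {c : ClassGroup (𝓞 K) // c ^ 3 = 1} : ℝ) - 1) := by
    rw [hcard]
    push_cast
    exact Finset.sum_le_sum hfib
  have h10 : c / 27 * X = c * (X / 27) := by ring
  rw [h10, ← hT4]
  exact hSc.trans h9

end Pool.Agent.PPL
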