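import Pool.Agent.PPG.Unr
import Pool.Agent.PPL.ClsL

/-!
# PPL/UnrL: a strictly reduced cubic form is determined up to the sign by its class; see `PPG/Unr`
-/

set_option autoImplicit false

namespace Pool.Agent.PPL

open NumberField Pool.Agent.FTA Pool.Agent.FTB Pool.Agent.FTL Pool.Agent.PPG nonZeroDivisors

/-- the ideals of two strictly reduced forms with the same class are equal -/
theorem idl_eq (K : IntermediateField ℚ ℂ) [NumberField K]
    (h2 : Module.finrank ℚ K = 2) (him : ∃ x : K, (x : ℂ).im ≠ 0)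
    (a b c d a1 b1 c1 d1 : ℤ) (hn : Nf (aD K) a b c d) (hn1 : Nf (aD K) a1 b1 c1 d1)
    (A : ClassGroup (𝓞 K)) (hA : FC K a b c d A) (hA1 : FC K a1 b1 c1 d1 A)
    (w w' : 𝓞 K) (I I' : Ideal (𝓞 K)) (h : FD K a b c d w w' I I')
    (v v' : 𝓞 K) (J J' : Ideal (𝓞 K)) (k : FD K a1 b1 c1 d1 v v' J J') : I = J := by
  obtain ⟨hI, hI'⟩ := fd_ne K h2 him a b c d hn.toNd w w' I I' h
  obtain ⟨hJ, hJ'⟩ := fd_ne K h2 him a1 b1 c1 d1 hn1.toNd v v' J J' k
  rw [fc_iff K a b c d w w' I I' h hI] at hA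
  rw [fc_iff K a1 b1 c1 d1 v v' J J' k hJ] at hA1
  have hnI := fd_nrm K h2 him a b c d hn.toNd w w' I I' h
  have hnJ := fd_nrm K h2 him a1 b1 c1 d1 hn1.toNd v v' J J' k
  -- `I' J` is principal
  have h1 : ClassGroup.mk0 (nz I' hI' * nz J hJ) = 1 := by
    rw [map_mul, fd_inv K a b c d w w' I I' h hI hI', hA, hA1]
    exact inv_mul_cancel A
  rw [ClassGroup.mk0_eq_one_iff] at h1
  obtain ⟨β, hβ⟩ := h1
  have hβ' : I' * J = Ideal.span {β} := hβ
  clear hβ
  obtain ⟨m, n, hmn⟩ := co_exists K h2 him β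
  have h4 := co_norm K h2 him β m n hmn
  rw [← hβ', map_mul] at h4
  push_cast at h4
  rw [hnI.2, hnJ.1] at h4
  have hβm : β ∈ I' * J := by rw [hβ']; exact Ideal.mem_span_singleton_self β
  have hβI : β ∈ I' := Ideal.mul_le_left hβm
  have hβJ : β ∈ J := Ideal.mul_le_right hβm
  have eP : (b : 𝓞 K) ^ 2 - a * c = ((Pc a b c : ℤ) : 𝓞 K) := by unfold Pc; push_cast; ring
  have eR : (c : 𝓞 K) ^ 2 - b * d = ((Pc d c b : ℤ) : 𝓞 K) := by unfold Pc; push_cast; ring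
  have eQ : (b : 𝓞 K) * c - a * d = ((Qc a b c d : ℤ) : 𝓞 K) := by unfold Qc; push_cast; ring
  have eP1 : (b1 : 𝓞 K) ^ 2 - a1 * c1 = ((Pc a1 b1 c1 : ℤ) : 𝓞 K) := by
    unfold Pc; push_cast; ring
  have eR1 : (c1 : 𝓞 K) ^ 2 - b1 * d1 = ((Pc d1 c1 b1 : ℤ) : 𝓞 K) := by
    unfold Pc; push_cast; ring
  have eQ1 : (b1 : 𝓞 K) * c1 - a1 * d1 = ((Qc a1 b1 c1 d1 : ℤ) : 𝓞 K) := by
    unfold Qc; push_cast; ring
  have hs := h.hs
  have hm := h.hm
  have ks := k.hs
  have km := k.hm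
  rw [eQ] at hs
  rw [eP, eR] at hm
  rw [eQ1] at ks
  rw [eP1, eR1] at km
  rw [h.hI', eP] at hβI
  rw [k.hI, eP1] at hβJ
  obtain ⟨x, y, hxy⟩ := lat_mem K h2 him _ _ _ 1 (by norm_num) w w' h.hw hs hm β hβI
  rw [add_comm] at ks
  rw [mul_comm] at km
  obtain ⟨x1, y1, hxy1⟩ := lat_mem K h2 him _ _ _ (-1) (by norm_num) v' v k.hw' ks km β hβJ
  have c1' := co_add K _ _ _ _ _ _ (co_int K (x * Pc a b c)) (co_smul K y w _ _ h.hw)
  have c2' := co_add K _ _ _ _ _ _ (co_int K (x1 * Pc a1 b1 c1)) (co_smul K y1 v' _ _ k.hw')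
  rw [Int.cast_mul, ← hxy] at c1'
  rw [Int.cast_mul, ← hxy1] at c2'
  obtain ⟨u1, u2⟩ := co_unique K _ _ _ _ _ hmn c1'
  obtain ⟨u3, u4⟩ := co_unique K _ _ _ _ _ hmn c2'
  rw [mul_one, zero_add] at u2
  rw [mul_neg, mul_one, zero_add] at u4
  obtain ⟨hy, w5⟩ := idl_int (aD K) _ _ _ _ _ _ m n x y x1 y1 hn.hD hn1.hD hn.p0 hn1.p0
    hn.q1 hn.r1 hn1.q1 hn1.r1 h4 u1 u2 u3 u4
  have w6 : Ideal.span {β} = Ideal.span {((Pc a b c : ℤ) : 𝓞 K)} := by
    rw [hxy, hy]
    rcases w5 with h5 | h5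
    · rw [h5]; simp
    · rw [h5, Int.cast_zero, zero_mul, add_zero, Int.cast_neg, Int.cast_one, neg_one_mul,
        Ideal.span_singleton_neg]
  have w7 : I' * J = I' * I := by
    rw [hβ', w6, h.mm, eP]
  exact (mul_left_cancel₀ hI' w7).symm

theorem fc_uniq (K : IntermediateField ℚ ℂ) [NumberField K]
    (h2 : Module.finrank ℚ K = 2) (him : ∃ x : K, (x : ℂ).im ≠ 0)
    (a b c d a1 b1 c1 d1 : ℤ) (hn : Nf (aD K) a b c d) (hn1 : Nf (aD K) a1 b1 c1 d1)
    (A : ClassGroup (𝓞 K)) (hA : FC K a b c d A) (hA1 : FC K a1 b1 c1 d1 A) :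
    (a1 = a ∧ b1 = b ∧ c1 = c ∧ d1 = d) ∨ (a1 = -a ∧ b1 = -b ∧ c1 = -c ∧ d1 = -d) := by
  obtain ⟨w, w', I, I', h⟩ := fd_ex K h2 him a b c d hn.toNd
  obtain ⟨v, v', J, J', k⟩ := fd_ex K h2 him a1 b1 c1 d1 hn1.toNd
  have hIJ := idl_eq K h2 him a b c d a1 b1 c1 d1 hn hn1 A hA hA1 w w' I I' h v v' J J' k
  subst hIJ
  have hnI := (fd_nrm K h2 him a b c d hn.toNd w w' I I' h).1
  have hnJ := (fd_nrm K h2 him a1 b1 c1 d1 hn1.toNd v v' I J' k).1
  have hP : Pc a1 b1 c1 = Pc a b c := by rw [← hnI, ← hnJ]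
  -- the generators of the cube
  have hco := fd_co K a b c d w w' I I' h
  have hco1 := fd_co K a1 b1 c1 d1 v v' I J' k
  have hcu := h.cu
  rw [k.cu, Ideal.span_singleton_eq_span_singleton] at hcu
  obtain ⟨u, hu⟩ := hcu
  have hD4 : 4 < aD K := by
    have h5 := nf_size _ a b c d hn
    have h6 := hn.p2
    omega
  -- the middle coefficients
  have hQ : Qc a1 b1 c1 d1 = Qc a b c d := by
    have m1 : w' ∈ I := by rw [h.hI]; exact Ideal.subset_span (by simp)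
    have m2 : v' ∈ I := by rw [k.hI]; exact Ideal.subset_span (by simp)
    have m3 : v' + ((-1 : ℤ) : 𝓞 K) * w' ∈ I := by
      have := sub_mem m2 m1
      push_cast
      rwa [neg_one_mul, ← sub_eq_add_neg]
    have c3 := co_add K _ _ _ _ _ _ k.hw' (co_smul K (-1) w' _ _ h.hw')
    rw [show (-1 : ℤ) + -1 * -1 = 0 by norm_num] at c3
    have eP : (b : 𝓞 K) ^ 2 - a * c = ((Pc a b c : ℤ) : 𝓞 K) := by unfold Pc; push_cast; ring
    have eR : (c : 𝓞 K) ^ 2 - b * d = ((Pc d c b : ℤ) : 𝓞 K) := by unfold Pc; push_cast; ring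
    have eQ : (b : 𝓞 K) * c - a * d = ((Qc a b c d : ℤ) : 𝓞 K) := by
      unfold Qc; push_cast; ring
    have hs := h.hs
    have hm := h.hm
    rw [eQ, add_comm] at hs
    rw [eP, eR, mul_comm] at hm
    have m4 := m3
    rw [h.hI, eP] at m4
    obtain ⟨x, y, hxy⟩ := lat_mem K h2 him _ _ _ (-1) (by norm_num) w' w h.hw' hs hm _ m4
    have c4 := co_add K _ _ _ _ _ _ (co_int K (x * Pc a b c)) (co_smul K y w' _ _ h.hw')
    rw [Int.cast_mul, ← hxy] at c4
    obtain ⟨e1, e2⟩ := co_unique K _ _ _ _ _ c3 c4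
    have hy : y = 0 := by linarith
    subst hy
    have e3 : Qc a1 b1 c1 d1 - Qc a b c d = 2 * Pc a b c * x := by linarith
    have q1 := hn.q1
    have q2 := hn1.q1
    rw [hP] at q2
    rw [abs_lt] at q1 q2
    have hx : x = 0 := by
      by_contra hne
      rcases lt_or_gt_of_ne hne with h9 | h9
      · have : x ≤ -1 := by omega
        nlinarith [hn.p0]
      · have : 1 ≤ x := by omega
        nlinarith [hn.p0]
    rw [hx] at e3
    linarith
  have hp := hn.p0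
  have ha := hn.ha
  rcases co_unit K h2 him hD4 (u : 𝓞 K) u.isUnit with hu1 | hu1
  · left
    rw [hu1, mul_one] at hu
    rw [hu] at hco1
    obtain ⟨e1, e2⟩ := co_unique K _ _ _ _ _ hco1 hco
    subst e2
    rw [hQ, hP] at e1
    have e3 : b1 = b := by
      have : Pc a1 b c * b1 = Pc a1 b c * b := by linarith
      exact mul_left_cancel₀ hp.ne' this
    subst e3
    have e4 : c1 = c := by
      unfold Pc at hP
      have : a1 * c1 = a1 * c := by linarith
      exact mul_left_cancel₀ ha this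
    subst e4
    have e5 : d1 = d := by
      unfold Qc at hQ
      have : a1 * d1 = a1 * d := by linarith
      exact mul_left_cancel₀ ha this
    exact ⟨rfl, rfl, rfl, e5⟩
  · right
    rw [hu1, mul_neg_one] at hu
    have hneg := co_neg K _ _ _ hco
    rw [← hu, neg_neg] at hneg
    obtain ⟨e1, e2⟩ := co_unique K _ _ _ _ _ hco1 hneg
    subst e2
    rw [hQ, hP] at e1
    have e3 : b1 = -b := by
      have : Pc a b c * b1 = Pc a b c * (-b) := by linarith
      exact mul_left_cancel₀ hp.ne' this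
    subst e3
    have e4 : c1 = -c := by
      unfold Pc at hP
      have : a * c1 = a * (-c) := by linarith
      exact mul_left_cancel₀ ha this
    subst e4
    have e5 : d1 = -d := by
      unfold Qc at hQ
      have : a * d1 = a * (-d) := by linarith
      exact mul_left_cancel₀ ha this
    exact ⟨rfl, rfl, rfl, e5⟩

end Pool.Agent.PPL
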